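import Pool.Agent.W2helper58.IR.Stm
import Pool.Agent.H628R3.RO.M1

/-!
# The random function is an exponentially hard one-way function, almost surely
-/

set_option autoImplicit false

namespace Pool.Agent.W2helper31.IR

open Pool.Agent.NPC Pool.Agent.H620R2.Gauge Pool.Agent.W2helper57.LC MeasureTheory Filter Topology
open Pool.Agent.W2helper58.IR
open Pool.Agent.W2helper58.GU (acc)

/-! ### The random function is computable -/

theorem poly_repl {α : Type} [TEnc α] {n : α → ℕ} (hn : UPoly n) (b : Bool) :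
    Poly (fun a => List.replicate (n a) b) :=
  (NPC.Poly.map (F := fun _ _ => b) hn (NPC.Poly.const b)).congr fun a => by simp

theorem isFP_rf (A : Oracle) : IsFP A (rf A) := by
  have h1 : UPoly (fun x : List Bool => 3 * x.length) :=
    UPoly.mul (UPoly.const 3) (UPoly.length Poly.id)
  have h2 : UPoly (fun p : List Bool × ℕ => min p.2 (3 * p.1.length)) :=
    UPoly.of_le (Poly.min (Poly.snd Poly.id)
      ((h1.comp (Poly.fst Poly.id)).toPoly)) (h1.comp (Poly.fst Poly.id))
      (fun p => min_le_right _ _)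
  have hQ : Poly (fun x : List Bool => (List.range (3 * x.length)).map fun i =>
      false :: false :: (x ++ List.replicate (min i (3 * x.length)) true)) :=
    NPC.Poly.map (F := fun (x : List Bool) (i : ℕ) =>
      false :: false :: (x ++ List.replicate (min i (3 * x.length)) true)) h1.range
      (NPC.Poly.cons (NPC.Poly.const false) (NPC.Poly.cons (NPC.Poly.const false)
        (Poly.append (Poly.fst Poly.id) (poly_repl h2 true))))
  have h := IsFP.tt (A := A) (H := fun p => p.2) hQ (Poly.snd Poly.id)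
  have e : (fun x : List Bool => ((List.range (3 * x.length)).map fun i =>
      false :: false :: (x ++ List.replicate (min i (3 * x.length)) true)).map A) = rf A := by
    funext x
    unfold rf
    rw [List.map_map]
    refine List.map_congr_left fun i hi => ?_
    rw [List.mem_range] at hi
    simp only [Function.comp]
    rw [min_eq_left hi.le]
  rwa [e] at h

/-! ### Measurability -/

/-- all preimages of strings are measurable -/
def Ms (g : Oracle → List Bool) : Prop := ∀ z, MeasurableSet {B : Oracle | g B = z}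

theorem ms_of_loc {g : Oracle → List Bool} (b : ℕ)
    (h : ∀ A A' : Oracle, (∀ u : List Bool, u.length ≤ b → A u = A' u) → g A = g A') : Ms g := by
  intro z
  refine Pool.Agent.H628R3.RO.measurableSet_of_loc
    (K := {u : List Bool | u.length ≤ b}) (List.finite_length_le Bool b) ?_
  intro A A' hAA
  have := h A A' (fun u hu => hAA u hu)
  simp only [Set.mem_ofPred_eq]
  rw [this]

theorem Ms.comp {g : Oracle → List Bool} {h : List Bool → Oracle → List Bool} (hg : Ms g)
    (hh : ∀ z, Ms (h z)) : Ms (fun B => h (g B) B) := by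
  intro z
  have e : {B : Oracle | h (g B) B = z} = ⋃ y : List Bool, {B | g B = y} ∩ {B | h y B = z} := by
    ext B
    simp
  rw [e]
  exact MeasurableSet.iUnion fun y => (hg y).inter (hh y z)

theorem Ms.eq {g h : Oracle → List Bool} (hg : Ms g) (hh : Ms h) :
    MeasurableSet {B : Oracle | g B = h B} := by
  have e : {B : Oracle | g B = h B} = ⋃ y : List Bool, {B | g B = y} ∩ {B | h B = y} := by
    ext B
    simp only [Set.mem_ofPred_eq, Set.mem_iUnion, Set.mem_inter_iff]
    constructor
    · intro hB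
      exact ⟨h B, hB, rfl⟩
    · rintro ⟨y, h1, h2⟩
      rw [h1, h2]
  rw [e]
  exact MeasurableSet.iUnion fun y => (hg y).inter (hh y)

theorem mix_loc {T : Set (List Bool)} {G : Oracle} {b : ℕ} {A A' : Oracle}
    (h : ∀ u : List Bool, u.length ≤ b → A u = A' u) :
    ∀ u : List Bool, u.length ≤ b → mix T G A u = mix T G A' u := by
  intro u hu
  unfold Pool.Agent.W2helper58.IR.mix
  split_ifs
  · rfl
  · exact h u hu

theorem ms_rf (T : Set (List Bool)) (G : Oracle) (x : List Bool) :
    Ms (fun B => rf (mix T G B) x) := by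
  refine ms_of_loc (4 * x.length + 2) fun A A' h => ?_
  unfold rf
  refine List.map_congr_left fun i hi => ?_
  rw [List.mem_range] at hi
  refine mix_loc h _ ?_
  simp only [List.length_cons, List.length_append, List.length_replicate]
  omega

theorem ms_acc (T : Set (List Bool)) (G : Oracle) (M : Alg) (y : List Bool) :
    Ms (fun B => acc M (mix T G B) y) := by
  obtain ⟨b, hb⟩ := s_LOC _ (s_ACC M)
  exact ms_of_loc (b.eval y.length) fun A A' h => hb _ _ _ (mix_loc h)

theorem ms_event (T : Set (List Bool)) (G : Oracle) (M : Alg) (n : ℕ) (x w : List Bool) :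
    MeasurableSet {B : Oracle | rf (mix T G B)
      (acc M (mix T G B) (pairBits w (pairBits (un n) (rf (mix T G B) x)))) =
        rf (mix T G B) x} := by
  refine Ms.eq ?_ (ms_rf T G x)
  refine Ms.comp (g := fun B => acc M (mix T G B) (pairBits w (pairBits (un n)
    (rf (mix T G B) x)))) (h := fun z B => rf (mix T G B) z) ?_ (fun z => ms_rf T G z)
  exact Ms.comp (g := fun B => rf (mix T G B) x)
    (h := fun z B => acc M (mix T G B) (pairBits w (pairBits (un n) z))) (ms_rf T G x)
    (fun z => ms_acc T G M _)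

theorem meas_inv (T : Set (List Bool)) (G : Oracle) (M : Alg) (p : Polynomial ℕ) (n : ℕ) :
    Measurable (fun B => inv (rf (mix T G B)) (acc M (mix T G B)) p n) := by
  classical
  unfold inv pr2
  refine Measurable.div_const ?_ _
  have e : ∀ B : Oracle, (Nat.card {w : (Fin n → Bool) × (Fin (p.eval n) → Bool) //
      rf (mix T G B) (acc M (mix T G B) (pairBits (List.ofFn w.2) (pairBits (un n)
        (rf (mix T G B) (List.ofFn w.1))))) = rf (mix T G B) (List.ofFn w.1)} : ℝ) =
      ∑ w : (Fin n → Bool) × (Fin (p.eval n) → Bool),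
        Set.indicator {B : Oracle | rf (mix T G B) (acc M (mix T G B) (pairBits (List.ofFn w.2)
          (pairBits (un n) (rf (mix T G B) (List.ofFn w.1))))) = rf (mix T G B) (List.ofFn w.1)}
          (fun _ => (1 : ℝ)) B := by
    intro B
    rw [Nat.card_eq_fintype_card, Fintype.card_subtype]
    rw [Finset.card_filter]
    push_cast
    refine Finset.sum_congr rfl fun w _ => ?_
    simp only [Set.indicator_apply, Set.mem_ofPred_eq]
  simp_rw [e]
  refine Finset.measurable_sum _ fun w _ => ?_
  exact measurable_const.indicator (ms_event T G M n _ _)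

theorem inv_nonneg (f D : List Bool → List Bool) (p : Polynomial ℕ) (n : ℕ) : 0 ≤ inv f D p n := by
  unfold inv pr2
  positivity

theorem inv_le_one (f D : List Bool → List Bool) (p : Polynomial ℕ) (n : ℕ) : inv f D p n ≤ 1 := by
  unfold inv pr2
  rw [div_le_one (by positivity)]
  have h := Nat.card_le_card_of_injective
    (Subtype.val : {w : (Fin n → Bool) × (Fin (p.eval n) → Bool) //
      f (D (pairBits (List.ofFn w.2) (pairBits (un n) (f (List.ofFn w.1))))) =
        f (List.ofFn w.1)} → _) Subtype.val_injective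
  have h2 : Nat.card ((Fin n → Bool) × (Fin (p.eval n) → Bool)) = 2 ^ (n + p.eval n) := by
    rw [Nat.card_prod, Nat.card_fun, Nat.card_fun]
    simp [pow_add]
  rw [h2] at h
  exact_mod_cast h

/-! ### Borel-Cantelli -/

theorem summable_poly (q : Polynomial ℕ) {r : ℝ} (h0 : 0 ≤ r) (h1 : r < 1) :
    Summable (fun n : ℕ => ((q.eval n : ℕ) : ℝ) * r ^ n) := by
  induction q using Polynomial.induction_on' with
  | add p q hp hq =>
    refine (hp.add hq).congr fun n => ?_
    rw [Polynomial.eval_add]
    push_cast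
    ring
  | monomial k c =>
    have h := (summable_pow_mul_geometric_of_norm_lt_one k
      (r := r) (by rwa [Real.norm_of_nonneg h0])).mul_left (c : ℝ)
    refine h.congr fun n => ?_
    rw [Polynomial.eval_monomial]
    push_cast
    ring

theorem half_le (n : ℕ) : ((2 : ℝ) ^ n)⁻¹ / (1 / 2) ^ (n / 2) ≤ (Real.sqrt (1 / 2)) ^ n := by
  have h1 : (Real.sqrt (1 / 2)) ^ n * (Real.sqrt (1 / 2)) ^ n = (1 / 2 : ℝ) ^ n := by
    rw [← mul_pow, Real.mul_self_sqrt (by norm_num)]
  have h2 : (Real.sqrt (1 / 2)) ^ n ≤ (1 / 2 : ℝ) ^ (n / 2) := by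
    have h3 : (Real.sqrt (1 / 2)) ^ n ≤ (Real.sqrt (1 / 2)) ^ (2 * (n / 2)) := by
      refine pow_le_pow_of_le_one (Real.sqrt_nonneg _) ?_ (by omega)
      exact Real.sqrt_le_one.2 (by norm_num)
    rwa [pow_mul, Real.sq_sqrt (by norm_num)] at h3
  have h3 : ((2 : ℝ) ^ n)⁻¹ = (1 / 2 : ℝ) ^ n := by rw [one_div, inv_pow]
  rw [h3, ← h1, div_le_iff₀ (by positivity)]
  have h4 : 0 ≤ (Real.sqrt (1 / 2)) ^ n := by positivity
  exact mul_le_mul_of_nonneg_left h2 h4

theorem ae_alg (ho : P_owf1) (T : Set (List Bool)) (G : Oracle)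
    (hT : ∀ u : List Bool, false :: false :: u ∉ T) (M : Alg) (p : Polynomial ℕ) :
    ∀ᵐ B ∂ranO, ∀ᶠ n : ℕ in atTop,
      inv (rf (mix T G B)) (acc M (mix T G B)) p n ≤ (1 / 2) ^ (n / 2) := by
  obtain ⟨q, hq⟩ := ho T G M p hT
  set s : ℕ → Set Oracle := fun n =>
    {B | (1 / 2 : ℝ) ^ (n / 2) ≤ inv (rf (mix T G B)) (acc M (mix T G B)) p n} with hs
  have hint : ∀ n, Integrable (fun B => inv (rf (mix T G B)) (acc M (mix T G B)) p n) ranO := by
    intro n
    refine Integrable.of_bound (meas_inv T G M p n).aestronglyMeasurable 1 ?_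
    refine Eventually.of_forall fun B => ?_
    rw [Real.norm_of_nonneg (inv_nonneg _ _ _ _)]
    exact inv_le_one _ _ _ _
  have hb : ∀ n, ranO.real (s n) ≤ ((q.eval n : ℕ) : ℝ) * (Real.sqrt (1 / 2)) ^ n := by
    intro n
    have h1 := mul_meas_ge_le_integral_of_nonneg
      (Eventually.of_forall fun B => inv_nonneg (rf (mix T G B)) (acc M (mix T G B)) p n)
      (hint n) ((1 / 2 : ℝ) ^ (n / 2))
    have h2 := h1.trans (hq n)
    have h3 : (0 : ℝ) < (1 / 2) ^ (n / 2) := by positivity
    have h4 : ranO.real (s n) ≤ ((q.eval n : ℕ) : ℝ) / 2 ^ n / (1 / 2) ^ (n / 2) := by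
      rw [le_div_iff₀ h3, mul_comm]
      exact h2
    refine h4.trans ?_
    have h5 := half_le n
    calc ((q.eval n : ℕ) : ℝ) / 2 ^ n / (1 / 2) ^ (n / 2)
        = ((q.eval n : ℕ) : ℝ) * (((2 : ℝ) ^ n)⁻¹ / (1 / 2) ^ (n / 2)) := by
          rw [div_eq_mul_inv _ ((2 : ℝ) ^ n), mul_div_assoc]
      _ ≤ _ := mul_le_mul_of_nonneg_left h5 (Nat.cast_nonneg _)
  have hsum : ∑' n, ranO (s n) ≠ ⊤ := by
    have h1 : Summable (fun n : ℕ => ((q.eval n : ℕ) : ℝ) * (Real.sqrt (1 / 2)) ^ n) :=
      summable_poly q (Real.sqrt_nonneg _) (by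
        rw [Real.sqrt_lt' one_pos]
        norm_num)
    have h2 : ∀ n, ranO (s n) ≤ ENNReal.ofReal (((q.eval n : ℕ) : ℝ) *
        (Real.sqrt (1 / 2)) ^ n) := by
      intro n
      rw [← ENNReal.ofReal_toReal (measure_ne_top ranO (s n))]
      exact ENNReal.ofReal_le_ofReal (hb n)
    refine ne_top_of_le_ne_top ?_ (ENNReal.tsum_le_tsum h2)
    exact h1.tsum_ofReal_ne_top
  have h := ae_eventually_notMem hsum
  filter_upwards [h] with B hB
  filter_upwards [hB] with n hn
  simp only [hs, Set.mem_ofPred_eq, not_le] at hn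
  exact hn.le

theorem p_owf2 : P_owf2 := by
  intro ho T G hT
  have hc1 := Pool.Agent.H620R2.Gauge.CC.poly_countable
  have h : ∀ᵐ B ∂ranO, ∀ (M : Alg) (p : Polynomial ℕ), ∀ᶠ n : ℕ in atTop,
      inv (rf (mix T G B)) (acc M (mix T G B)) p n ≤ (1 / 2) ^ (n / 2) := by
    rw [ae_all_iff]
    intro M
    rw [ae_all_iff]
    intro p
    exact ae_alg ho T G hT M p
  filter_upwards [h] with B hB
  refine ⟨rf (mix T G B), isFP_rf _, fun D p hD => ?_⟩
  obtain ⟨M, hM⟩ := hD
  have e : acc M (mix T G B) = D := by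
    funext y
    unfold acc
    rw [hM y]
    rfl
  have h1 := hB M p
  rwa [e] at h1

end Pool.Agent.W2helper31.IR
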